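import Mathlib
import Pool.Agent.PatSturm.Statement
import Pool.Agent.PatSturm.Final

/-!
# Classification of the recurrent pattern Sturmian sequences, double-sided and single-sided

The definitions are in `Pool.Agent.PatSturm.Statement`: pattern complexity, recurrence, pattern
Sturmian sequences, for double-sided sequences `x : ℤ → A` and for single-sided sequences
`(x_m)_{m ≥ 1}`, and the two explicit families `IntervalCoding` and `ArcToeplitz`.
-/

set_option autoImplicit false

namespace Pool.Agent.Results.MP_2825c1_co.RecurrentPatternSturmian

open Pool.Agent.PatSturm.Statement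

/-- **All recurrent pattern Sturmian sequences.** Over any alphabet `A`:

* a double-sided sequence `x` is recurrent and pattern Sturmian (`p^*(n) = 2n` for all `n ≥ 1`) iff
  it uses exactly two letters `p ≠ q` and, as a binary sequence, is a coding of an irrational
  rotation by an interval or an arc-Toeplitz sequence;
* a single-sided sequence `(x_m)_{m ≥ 1}` is recurrent and pattern Sturmian iff it is the positive
  part of such a double-sided sequence. -/
theorem result :
    (∀ {A : Type} (x : ℤ → A), (Recurrent x ∧ PatternSturmian x) ↔
      ∃ (p q : A) (X : ℤ → Bool), p ≠ q ∧ (IntervalCoding X ∨ ArcToeplitz X) ∧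
        ∀ m : ℤ, x m = if X m = true then p else q) ∧
    (∀ {A : Type} (x : ℕ → A), (Recurrent₁ x ∧ PatternSturmian₁ x) ↔
      ∃ (p q : A) (X : ℤ → Bool), p ≠ q ∧ (IntervalCoding X ∨ ArcToeplitz X) ∧
        ∀ m : ℕ, 1 ≤ m → x m = if X m = true then p else q) :=
  Pool.Agent.PatSturm.Final.full_result Pool.Agent.PatSturm.Final.main_holds

end Pool.Agent.Results.MP_2825c1_co.RecurrentPatternSturmian
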